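import Pool.Agent.Helper1.ZN.Defs

/-!
# ZN-B1: block Hessenberg matrices
-/

namespace Pool.Agent.Helper1.ZN

open Finset Polynomial
open Pool.Agent.Helper47.SAP (Pat Realizes Irred SpecArb IsD Mt)

/-- shift of a set of positions -/
def B1_shift (m : ℕ) (B : Finset (ℕ × ℕ)) : Finset (ℕ × ℕ) :=
  B.image (fun p => (p.1 + m, p.2 + m))

theorem B1_mem_shift (m : ℕ) (B : Finset (ℕ × ℕ)) (i j : ℕ) :
    (i, j) ∈ B1_shift m B ↔ m ≤ i ∧ m ≤ j ∧ (i - m, j - m) ∈ B := by
  unfold B1_shift
  rw [Finset.mem_image]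
  constructor
  · rintro ⟨⟨a, b⟩, hab, h⟩
    rw [Prod.mk.injEq] at h
    obtain ⟨rfl, rfl⟩ := h
    simpa using hab
  · rintro ⟨h1, h2, h3⟩
    refine ⟨(i - m, j - m), h3, ?_⟩
    rw [Prod.mk.injEq]
    constructor <;> simp only <;> omega

/-- appending a block -/
theorem B1_append {L B : Finset (ℕ × ℕ)} {m b : ℕ} {f g : ℝ → ℝ} (hL : ∀ p ∈ L, p.1 < m)
    (hf : RzL L m f) (hg : RzL B b g) :
    RzL (L ∪ B1_shift m B) (m + b) (fun x => f x * g x) := by
  obtain ⟨a, ha, hD⟩ := hf
  obtain ⟨a', ha', hD'⟩ := hg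
  refine ⟨fun i j => if i < m then a i j else if m ≤ j then a' (i - m) (j - m) else 0, ?_, ?_⟩
  · intro i j
    rw [Finset.mem_union, B1_mem_shift]
    by_cases hi : i < m
    · simp only [hi, if_true, ha]
      constructor
      · exact fun h => Or.inl h
      · rintro (h | h)
        · exact h
        · omega
    · simp only [hi, if_false]
      by_cases hj : m ≤ j
      · simp only [hj, if_true, ha']
        constructor
        · exact fun h => Or.inr ⟨by omega, trivial, h⟩
        · rintro (h | h)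
          · exact absurd (hL _ h) hi
          · exact h.2.2
      · simp only [hj, if_false, ne_eq, not_true_eq_false, false_and, and_false, or_false,
          false_iff]
        exact fun h => absurd (hL _ h) hi
  · intro x
    obtain ⟨D, ⟨hD0, hDs⟩, hDm⟩ := hD x
    obtain ⟨D', ⟨hD0', hDs'⟩, hDm'⟩ := hD' x
    let E : ℕ → ℝ := fun k => if k < m then D k else f x * D' (k - m)
    have hE1 : ∀ k, k ≤ m → E k = D k := by
      intro k hk
      by_cases h : k < m
      · simp [E, h]
      · obtain rfl : k = m := by omega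
        simp [E, hD0', hDm]
    have hE2 : ∀ k, E (m + k) = f x * D' k := by
      intro k
      have h1 : ¬ m + k < m := by omega
      simp [E]
    refine ⟨E, ⟨?_, ?_⟩, ?_⟩
    · rw [hE1 0 (Nat.zero_le _), hD0]
    · intro k hk
      by_cases hkm : k < m
      · rw [hE1 _ (by omega), hE1 _ (by omega), hDs k hkm]
        congr 1
        refine Finset.sum_congr rfl fun i hi => ?_
        rw [Finset.mem_range] at hi
        simp only [hkm, if_true]
        rw [hE1 i (by omega)]
      · obtain ⟨k', rfl⟩ : ∃ k', k = m + k' := ⟨k - m, by omega⟩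
        rw [show m + k' + 1 = m + (k' + 1) by ring, hE2, hE2, hDs' k' (by omega)]
        rw [Finset.sum_range_add (fun i => (fun i j => if i < m then a i j else
          if m ≤ j then a' (i - m) (j - m) else 0) (m + k') i * E i) m (k' + 1)]
        dsimp only
        have h1 : ∑ i ∈ range m, (if m + k' < m then a (m + k') i else
            if m ≤ i then a' (m + k' - m) (i - m) else 0) * E i = 0 := by
          refine Finset.sum_eq_zero fun i hi => ?_
          rw [Finset.mem_range] at hi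
          rw [if_neg hkm, if_neg (by omega), zero_mul]
        rw [h1, zero_add]
        have h2 : ∑ i ∈ range (k' + 1), (if m + k' < m then a (m + k') (m + i) else
            if m ≤ m + i then a' (m + k' - m) (m + i - m) else 0) * E (m + i)
            = f x * ∑ i ∈ range (k' + 1), a' k' i * D' i := by
          rw [Finset.mul_sum]
          refine Finset.sum_congr rfl fun i _ => ?_
          rw [if_neg hkm, if_pos (by omega), hE2, Nat.add_sub_cancel_left,
            Nat.add_sub_cancel_left]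
          ring
        rw [h2]
        ring
    · rw [hE2, hDm']

/-- adding the corner -/
theorem B1_corner {L : Finset (ℕ × ℕ)} {N : ℕ} {f : ℝ → ℝ} (hN : 0 < N)
    (hL : (N - 1, 0) ∉ L) (hf : RzL L N f) {c : ℝ} (hc : c ≠ 0) :
    RzL (L ∪ {(N - 1, 0)}) N (fun x => f x - c) := by
  obtain ⟨a, ha, hD⟩ := hf
  refine ⟨fun i j => if i = N - 1 ∧ j = 0 then c else a i j, ?_, ?_⟩
  · intro i j
    rw [Finset.mem_union, Finset.mem_singleton, Prod.mk.injEq]
    by_cases h : i = N - 1 ∧ j = 0
    · simp [h, hc]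
    · simp only [h, if_false, ha, or_false]
  · intro x
    obtain ⟨D, ⟨hD0, hDs⟩, hDm⟩ := hD x
    have ha0 : a (N - 1) 0 = 0 := by
      by_contra h
      exact hL ((ha _ _).1 h)
    refine ⟨fun k => if k < N then D k else f x - c, ⟨?_, ?_⟩, ?_⟩
    · simp [hN, hD0]
    · intro k hk
      have hsum : ∀ i ∈ range (k + 1), (if k = N - 1 ∧ i = 0 then c else a k i) *
          (if i < N then D i else f x - c) = a k i * D i +
          (if k = N - 1 then (if i = 0 then c else 0) else 0) := by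
        intro i hi
        rw [Finset.mem_range] at hi
        rw [if_pos (by omega : i < N)]
        by_cases h1 : k = N - 1
        · by_cases h2 : i = 0
          · rw [h1, h2]
            simp [ha0, hD0]
          · simp [h1, h2]
        · simp [h1]
      rw [Finset.sum_congr rfl hsum, Finset.sum_add_distrib]
      by_cases h1 : k = N - 1
      · have h2 : k + 1 = N := by omega
        have h3 : ∑ i ∈ range (k + 1), (if i = 0 then c else 0) = c := by
          rw [Finset.sum_ite_eq' (range (k + 1)) 0 (fun _ => c)]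
          simp
        simp only [if_pos h1]
        rw [h3, if_neg (by omega), if_pos hk]
        have h4 := hDs k hk
        rw [h2, hDm] at h4
        rw [h4, h2]
        ring
      · simp only [h1, if_false, Finset.sum_const_zero, add_zero]
        rw [if_pos (by omega : k + 1 < N), if_pos hk]
        exact hDs k hk
    · simp

/-- the pattern of the special block -/
def B1_LS : Finset (ℕ × ℕ) := {(0, 0)} ∪ ((Icc 2 24).erase 3).image (fun l => (23, 24 - l))

theorem B1_mem_LS (i j : ℕ) : (i, j) ∈ B1_LS ↔ (i = 0 ∧ j = 0) ∨ (i = 23 ∧ j ≤ 22 ∧ j ≠ 21) := by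
  unfold B1_LS
  simp only [Finset.mem_union, Finset.mem_singleton, Finset.mem_image, Finset.mem_erase,
    Finset.mem_Icc, Prod.mk.injEq]
  constructor
  · rintro (h | ⟨l, ⟨h1, h2, h3⟩, h4, h5⟩)
    · exact Or.inl h
    · exact Or.inr (by omega)
  · rintro (h | h)
    · exact Or.inl h
    · exact Or.inr ⟨24 - j, by omega, by omega, by omega⟩

theorem B1_special {f : ℝ → ℝ} (hf : OkS f) : RzL B1_LS 24 f := by
  obtain ⟨t, w, ht, hw, hfx⟩ := hf
  refine ⟨fun i j => if i = 0 ∧ j = 0 then t else if i = 23 ∧ j ≤ 22 ∧ j ≠ 21 then w (24 - j)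
    else 0, ?_, ?_⟩
  · intro i j
    rw [B1_mem_LS]
    dsimp only
    by_cases h0 : i = 0 ∧ j = 0
    · simp [h0, ht]
    · rw [if_neg h0]
      by_cases h1 : i = 23 ∧ j ≤ 22 ∧ j ≠ 21
      · rw [if_pos h1]
        have h2 : w (24 - j) ≠ 0 := by
          apply hw
          rw [Finset.mem_erase, Finset.mem_Icc]
          omega
        exact ⟨fun _ => Or.inr h1, fun _ => h2⟩
      · rw [if_neg h1]
        simp [h0, h1]
  · intro x
    refine ⟨fun j => if j = 0 then 1 else if j ≤ 23 then (x - t) * x ^ (j - 1) else f x,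
      ⟨by simp, ?_⟩, by simp⟩
    intro k hk
    by_cases hk0 : k = 0
    · subst hk0
      simp
    · by_cases hk23 : k = 23
      · subst hk23
        have hs : ((Icc 2 23).erase 3 : Finset ℕ) =
          {2, 4, 5, 6, 7, 8, 9, 10, 11, 12, 13, 14, 15, 16, 17, 18, 19, 20, 21, 22, 23} := by
          decide
        have hx := hfx x
        rw [hs] at hx
        norm_num at hx
        norm_num [Finset.sum_range_succ]
        rw [hx]
        ring
      · have h1 : ∑ i ∈ range (k + 1), (if k = 0 ∧ i = 0 then t else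
            if k = 23 ∧ i ≤ 22 ∧ i ≠ 21 then w (24 - i) else 0) *
            (if i = 0 then 1 else if i ≤ 23 then (x - t) * x ^ (i - 1) else f x) = 0 := by
          refine Finset.sum_eq_zero fun i _ => ?_
          simp [hk0, hk23]
        rw [h1]
        dsimp only
        rw [if_neg (by omega), if_pos (by omega), if_neg hk0, if_pos (by omega)]
        obtain ⟨k', rfl⟩ := Nat.exists_eq_succ_of_ne_zero hk0
        simp only [Nat.succ_eq_add_one, Nat.add_sub_cancel]
        ring

/-- type II -/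
def B1_L2 : Finset (ℕ × ℕ) := {(1, 0), (3, 1), (3, 2), (3, 3)}

theorem B1_two {f : ℝ → ℝ} (hf : OkII f) : RzL B1_L2 4 f := by
  obtain ⟨t, a, b, w, ht, ha, hb, hw, hfx⟩ := hf
  refine ⟨fun i j => if i = 1 ∧ j = 0 then a else if i = 3 ∧ j = 1 then w else
    if i = 3 ∧ j = 2 then b else if i = 3 ∧ j = 3 then t else 0, ?_, ?_⟩
  · intro i j
    unfold B1_L2
    simp only [Finset.mem_insert, Finset.mem_singleton, Prod.mk.injEq]
    split_ifs with h1 h2 h3 h4
    · simp [ha, h1]
    · simp [hw, h2]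
    · simp [hb, h3]
    · simp [ht, h4]
    · simp [h1, h2, h3, h4]
  · intro x
    refine ⟨fun j => if j = 0 then 1 else if j = 1 then x else if j = 2 then x ^ 2 - a else
      if j = 3 then x * (x ^ 2 - a) else f x, ⟨by simp, ?_⟩, by simp⟩
    intro k hk
    have hx := hfx x
    interval_cases k
    · norm_num [Finset.sum_range_succ]
    · norm_num [Finset.sum_range_succ]
      ring
    · norm_num [Finset.sum_range_succ]
    · norm_num [Finset.sum_range_succ]
      rw [hx]
      ring

/-- type I -/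
def B1_L1 : Finset (ℕ × ℕ) := (range 4).image (fun p => (3, p))

theorem B1_one {f : ℝ → ℝ} (hf : OkI f) : RzL B1_L1 4 f := by
  obtain ⟨w, hw, hfx⟩ := hf
  refine ⟨fun i j => if i = 3 ∧ j < 4 then w j else 0, ?_, ?_⟩
  · intro i j
    unfold B1_L1
    simp only [Finset.mem_image, Finset.mem_range, Prod.mk.injEq]
    split_ifs with h
    · simp only [ne_eq, hw j h.2, not_false_eq_true, true_iff]
      exact ⟨j, h.2, h.1.symm, rfl⟩
    · simp only [ne_eq, not_true_eq_false, false_iff]
      rintro ⟨p, hp, h1, h2⟩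
      exact h ⟨h1.symm, by omega⟩
  · intro x
    refine ⟨fun j => if j < 4 then x ^ j else f x, ⟨by simp, ?_⟩, by simp⟩
    intro k hk
    have hx := hfx x
    interval_cases k
    · norm_num [Finset.sum_range_succ]
    · norm_num [Finset.sum_range_succ]
      ring
    · norm_num [Finset.sum_range_succ]
      ring
    · norm_num [Finset.sum_range_succ] at hx ⊢
      rw [hx]
      ring

/-- quadratic block -/
def B1_LQ : Finset (ℕ × ℕ) := (range 2).image (fun p => (1, p))

theorem B1_quad {f : ℝ → ℝ} (hf : OkQ f) : RzL B1_LQ 2 f := by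
  obtain ⟨u, v, hu, hv, hfx⟩ := hf
  refine ⟨fun i j => if i = 1 ∧ j = 0 then -v else if i = 1 ∧ j = 1 then u else 0, ?_, ?_⟩
  · intro i j
    unfold B1_LQ
    simp only [Finset.mem_image, Finset.mem_range, Prod.mk.injEq]
    split_ifs with h1 h2
    · simp only [ne_eq, neg_eq_zero, hv, not_false_eq_true, true_iff]
      exact ⟨j, by omega, h1.1.symm, rfl⟩
    · simp only [ne_eq, hu, not_false_eq_true, true_iff]
      exact ⟨j, by omega, h2.1.symm, rfl⟩
    · simp only [ne_eq, not_true_eq_false, false_iff]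
      rintro ⟨p, hp, h3, h4⟩
      omega
  · intro x
    refine ⟨fun j => if j = 0 then 1 else if j = 1 then x else f x, ⟨by simp, ?_⟩, by simp⟩
    intro k hk
    have hx := hfx x
    interval_cases k
    · norm_num [Finset.sum_range_succ]
    · norm_num [Finset.sum_range_succ]
      rw [hx]
      ring

theorem B1_lin {f : ℝ → ℝ} (hf : OkL f) : RzL {(0, 0)} 1 f := by
  obtain ⟨t, ht, hfx⟩ := hf
  refine ⟨fun i j => if i = 0 ∧ j = 0 then t else 0, ?_, ?_⟩
  · intro i j
    rw [Finset.mem_singleton, Prod.mk.injEq]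
    dsimp only
    split_ifs with h
    · simp [h, ht]
    · simp [h]
  · intro x
    refine ⟨fun j => if j = 0 then 1 else f x, ⟨by simp, ?_⟩, by simp⟩
    intro k hk
    have hx := hfx x
    interval_cases k
    simp [hx]

/-- the pattern without type I blocks -/
def B1_base : Finset (ℕ × ℕ) :=
  {(0, 0)} ∪ ((Icc 2 24).erase 3).image (fun l => (23, 24 - l))
    ∪ {(25, 24), (27, 25), (27, 26), (27, 27)}

def B1_K (K : ℕ) : Finset (ℕ × ℕ) :=
  B1_base ∪ (range K ×ˢ range 4).image (fun p => (31 + 4 * p.1, 28 + 4 * p.1 + p.2))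

def B1_M (K M : ℕ) : Finset (ℕ × ℕ) :=
  B1_K K ∪ (range M ×ˢ range 2).image
    (fun p => (29 + 4 * K + 2 * p.1, 28 + 4 * K + 2 * p.1 + p.2))

def B1_E (K M e : ℕ) : Finset (ℕ × ℕ) :=
  B1_M K M ∪ (range e).image (fun i => (28 + 4 * K + 2 * M + i, 28 + 4 * K + 2 * M + i))

theorem B1_lower (K M e : ℕ) :
    lower K M e = B1_E K M e ∪ {(27 + 4 * K + 2 * M + e, 0)} := rfl

theorem B1_base_lt : ∀ p ∈ B1_base, p.1 < 28 ∧ (p.2 = 0 → p.1 < 24) := by
  unfold B1_base
  decide

theorem B1_K_lt (K : ℕ) : ∀ p ∈ B1_K K, p.1 < 28 + 4 * K ∧ (p.2 = 0 → p.1 < 24) := by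
  intro p hp
  unfold B1_K at hp
  rw [Finset.mem_union, Finset.mem_image] at hp
  rcases hp with hp | ⟨q, hq, rfl⟩
  · have := B1_base_lt p hp
    exact ⟨by omega, this.2⟩
  · rw [Finset.mem_product, Finset.mem_range, Finset.mem_range] at hq
    simp only
    omega

theorem B1_M_lt (K M : ℕ) :
    ∀ p ∈ B1_M K M, p.1 < 28 + 4 * K + 2 * M ∧ (p.2 = 0 → p.1 < 24) := by
  intro p hp
  unfold B1_M at hp
  rw [Finset.mem_union, Finset.mem_image] at hp
  rcases hp with hp | ⟨q, hq, rfl⟩
  · have := B1_K_lt K p hp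
    exact ⟨by omega, this.2⟩
  · rw [Finset.mem_product, Finset.mem_range, Finset.mem_range] at hq
    simp only
    omega

theorem B1_E_lt (K M e : ℕ) :
    ∀ p ∈ B1_E K M e, p.1 < 28 + 4 * K + 2 * M + e ∧ (p.2 = 0 → p.1 < 24) := by
  intro p hp
  unfold B1_E at hp
  rw [Finset.mem_union, Finset.mem_image] at hp
  rcases hp with hp | ⟨q, hq, rfl⟩
  · have := B1_M_lt K M p hp
    exact ⟨by omega, this.2⟩
  · rw [Finset.mem_range] at hq
    simp only
    omega

theorem B1_base_eq : B1_base = B1_LS ∪ B1_shift 24 B1_L2 := by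
  have h : B1_shift 24 B1_L2 = {(25, 24), (27, 25), (27, 26), (27, 27)} := by
    unfold B1_shift B1_L2
    decide
  rw [h]
  rfl

theorem B1_K_succ (K : ℕ) : B1_K (K + 1) = B1_K K ∪ B1_shift (28 + 4 * K) B1_L1 := by
  ext ⟨i, j⟩
  unfold B1_K
  rw [Finset.mem_union, Finset.mem_union, Finset.mem_union, B1_mem_shift, or_assoc]
  apply or_congr_right
  unfold B1_L1
  simp only [Finset.mem_image, Finset.mem_product, Finset.mem_range, Prod.mk.injEq]
  constructor
  · rintro ⟨⟨p, q⟩, ⟨hp, hq⟩, h1, h2⟩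
    simp only at hp hq h1 h2
    by_cases hpK : p < K
    · exact Or.inl ⟨(p, q), ⟨hpK, hq⟩, h1, h2⟩
    · right
      refine ⟨by omega, by omega, q, hq, ?_, ?_⟩ <;> omega
  · rintro (⟨⟨p, q⟩, ⟨hp, hq⟩, h1, h2⟩ | ⟨h1, h2, q, hq, h3, h4⟩)
    · simp only at hp hq h1 h2
      exact ⟨(p, q), ⟨by simp only; omega, hq⟩, h1, h2⟩
    · exact ⟨(K, q), ⟨by simp only; omega, hq⟩, by simp only; omega, by simp only; omega⟩

theorem B1_M_succ (K M : ℕ) :
    B1_M K (M + 1) = B1_M K M ∪ B1_shift (28 + 4 * K + 2 * M) B1_LQ := by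
  ext ⟨i, j⟩
  unfold B1_M
  rw [Finset.mem_union, Finset.mem_union, Finset.mem_union, B1_mem_shift, or_assoc]
  apply or_congr_right
  unfold B1_LQ
  simp only [Finset.mem_image, Finset.mem_product, Finset.mem_range, Prod.mk.injEq]
  constructor
  · rintro ⟨⟨p, q⟩, ⟨hp, hq⟩, h1, h2⟩
    simp only at hp hq h1 h2
    by_cases hpK : p < M
    · exact Or.inl ⟨(p, q), ⟨hpK, hq⟩, h1, h2⟩
    · right
      refine ⟨by omega, by omega, q, hq, ?_, ?_⟩ <;> omega
  · rintro (⟨⟨p, q⟩, ⟨hp, hq⟩, h1, h2⟩ | ⟨h1, h2, q, hq, h3, h4⟩)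
    · simp only at hp hq h1 h2
      exact ⟨(p, q), ⟨by simp only; omega, hq⟩, h1, h2⟩
    · exact ⟨(M, q), ⟨by simp only; omega, hq⟩, by simp only; omega, by simp only; omega⟩

theorem B1_E_succ (K M e : ℕ) :
    B1_E K M (e + 1) = B1_E K M e ∪ B1_shift (28 + 4 * K + 2 * M + e) {(0, 0)} := by
  ext ⟨i, j⟩
  unfold B1_E
  rw [Finset.mem_union, Finset.mem_union, Finset.mem_union, B1_mem_shift, or_assoc]
  apply or_congr_right
  simp only [Finset.mem_image, Finset.mem_range, Prod.mk.injEq, Finset.mem_singleton]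
  constructor
  · rintro ⟨p, hp, h1, h2⟩
    by_cases hpK : p < e
    · exact Or.inl ⟨p, hpK, h1, h2⟩
    · right
      omega
  · rintro (⟨p, hp, h1, h2⟩ | ⟨h1, h2, h3, h4⟩)
    · exact ⟨p, by omega, h1, h2⟩
    · exact ⟨e, by omega, by omega, by omega⟩

theorem B1_rz_base {f0 f1 : ℝ → ℝ} (h0 : OkS f0) (h1 : OkII f1) :
    RzL B1_base 28 (fun x => f0 x * f1 x) := by
  rw [B1_base_eq]
  refine B1_append (m := 24) (b := 4) ?_ (B1_special h0) (B1_two h1)
  intro p hp
  obtain ⟨i, j⟩ := p
  rw [B1_mem_LS] at hp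
  simp only
  omega

theorem B1_rz_K (K : ℕ) {f0 f1 : ℝ → ℝ} {g : ℕ → ℝ → ℝ} (h0 : OkS f0) (h1 : OkII f1)
    (hg : ∀ i < K, OkI (g i)) :
    RzL (B1_K K) (28 + 4 * K) (fun x => f0 x * f1 x * (∏ i ∈ range K, g i x)) := by
  induction K with
  | zero =>
    have h := B1_rz_base h0 h1
    have e1 : B1_K 0 = B1_base := by
      unfold B1_K
      simp
    rw [e1]
    simpa using h
  | succ K ih =>
    have h := B1_append (fun p hp => (B1_K_lt K p hp).1) (ih fun i hi => hg i (by omega))
      (B1_one (hg K (by omega)))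
    rw [B1_K_succ, show 28 + 4 * (K + 1) = 28 + 4 * K + 4 by ring]
    convert h using 2 with x
    rw [Finset.prod_range_succ]
    ring

theorem B1_rz_M (K M : ℕ) {f : ℝ → ℝ} {q : ℕ → ℝ → ℝ} (hf : RzL (B1_K K) (28 + 4 * K) f)
    (hq : ∀ i < M, OkQ (q i)) :
    RzL (B1_M K M) (28 + 4 * K + 2 * M) (fun x => f x * (∏ i ∈ range M, q i x)) := by
  induction M with
  | zero =>
    have e1 : B1_M K 0 = B1_K K := by
      unfold B1_M
      simp
    rw [e1]
    simpa using hf
  | succ M ih =>
    have h := B1_append (fun p hp => (B1_M_lt K M p hp).1) (ih fun i hi => hq i (by omega))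
      (B1_quad (hq M (by omega)))
    rw [B1_M_succ, show 28 + 4 * K + 2 * (M + 1) = 28 + 4 * K + 2 * M + 2 by ring]
    convert h using 2 with x
    rw [Finset.prod_range_succ]
    ring

theorem B1_rz_E (K M e : ℕ) {f : ℝ → ℝ} {l : ℕ → ℝ → ℝ}
    (hf : RzL (B1_M K M) (28 + 4 * K + 2 * M) f) (hl : ∀ i < e, OkL (l i)) :
    RzL (B1_E K M e) (28 + 4 * K + 2 * M + e) (fun x => f x * (∏ i ∈ range e, l i x)) := by
  induction e with
  | zero =>
    have e1 : B1_E K M 0 = B1_M K M := by
      unfold B1_E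
      simp
    rw [e1]
    simpa using hf
  | succ e ih =>
    have h := B1_append (fun p hp => (B1_E_lt K M e p hp).1) (ih fun i hi => hl i (by omega))
      (B1_lin (hl e (by omega)))
    rw [B1_E_succ, show 28 + 4 * K + 2 * M + (e + 1) = 28 + 4 * K + 2 * M + e + 1 by ring]
    convert h using 2 with x
    rw [Finset.prod_range_succ]
    ring

theorem rz_blocks (K M e : ℕ) (f0 f1 : ℝ → ℝ) (g q l : ℕ → ℝ → ℝ) (h0 : OkS f0) (h1 : OkII f1)
    (hg : ∀ i < K, OkI (g i)) (hq : ∀ i < M, OkQ (q i)) (hl : ∀ i < e, OkL (l i)) (c : ℝ)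
    (hc : c ≠ 0) :
    RzL (lower K M e) (ord K M e) (fun x => f0 x * f1 x * (∏ i ∈ range K, g i x) *
      (∏ i ∈ range M, q i x) * (∏ i ∈ range e, l i x) - c) := by
  have h := B1_rz_E K M e (B1_rz_M K M (B1_rz_K K h0 h1 hg) hq) hl
  have hN : 28 + 4 * K + 2 * M + e - 1 = 27 + 4 * K + 2 * M + e := by omega
  have h2 := B1_corner (by omega) (by
    intro hmem
    have := (B1_E_lt K M e _ hmem).2 rfl
    simp only at this
    omega) h hc
  rw [hN] at h2
  rw [B1_lower]
  exact h2

end Pool.Agent.Helper1.ZN
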